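import Mathlib

set_option autoImplicit false

/-!
Integer tables `a i + b j` all of whose entries are squares: three rows and any number of columns.

The rational points with `b`, `b + 2`, `b + 6` all squares are the doubles on an elliptic curve; the
doubling formula gives, from odd `S, T, R` and even `D` with `T² = S² + 2D²`, `R² = S² + 6D²`, a new
such quadruple whose last entry has one more factor `2`.
-/

namespace Pool.Agent.Results.MP_79d058_nt.ThreeByAll

/-- There is an `(m, n)`-square table: `m` pairwise distinct integers `a i` and `n` pairwise distinct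
integers `b j` such that every sum `a i + b j` is the square of an integer. -/
def HasTable (m n : ℕ) : Prop := ∃ (a : Fin m → ℤ) (b : Fin n → ℤ), Function.Injective a ∧
  Function.Injective b ∧ ∀ i j, IsSquare (a i + b j)

theorem HasTable.symm {m n : ℕ} (h : HasTable m n) : HasTable n m := by
  obtain ⟨a, b, ha, hb, hab⟩ := h
  exact ⟨b, a, hb, ha, fun i j => by rw [add_comm]; exact hab j i⟩

theorem seq_spec (k : ℕ) : ∃ S T R D : ℤ, Odd S ∧ Odd T ∧ Odd R ∧ Odd D ∧
    T ^ 2 = S ^ 2 + 2 * (2 ^ (k + 1) * D) ^ 2 ∧ R ^ 2 = S ^ 2 + 6 * (2 ^ (k + 1) * D) ^ 2 := by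
  induction k with
  | zero =>
    refine ⟨1, 3, 5, 1, by decide, by decide, by decide, by decide, by norm_num, by norm_num⟩
  | succ k ih =>
    obtain ⟨S, T, R, D', hS, hT, hR, hD, h1, h2⟩ := ih
    obtain ⟨D, hDe⟩ : ∃ D, D = 2 ^ (k + 1) * D' := ⟨_, rfl⟩
    rw [← hDe] at h1 h2
    have hDev : Even D := by
      rw [hDe, pow_succ]
      exact ⟨2 ^ k * D', by ring⟩
    refine ⟨S ^ 4 - 12 * D ^ 4, S ^ 4 + 4 * S ^ 2 * D ^ 2 + 12 * D ^ 4,
      S ^ 4 + 12 * S ^ 2 * D ^ 2 + 12 * D ^ 4, S * T * R * D', ?_, ?_, ?_, ?_, ?_, ?_⟩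
    · exact (hS.pow).sub_even ((by decide : Even (12 : ℤ)).mul_right _)
    · exact ((hS.pow).add_even (((by decide : Even (4 : ℤ)).mul_right _).mul_right _)).add_even
        ((by decide : Even (12 : ℤ)).mul_right _)
    · exact ((hS.pow).add_even (((by decide : Even (12 : ℤ)).mul_right _).mul_right _)).add_even
        ((by decide : Even (12 : ℤ)).mul_right _)
    · exact ((hS.mul hT).mul hR).mul hD
    · have e : (2 : ℤ) ^ (k + 1 + 1) * (S * T * R * D') = 2 * S * T * R * D := by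
        rw [hDe]; ring
      rw [e]
      linear_combination (-8 * S ^ 2 * D ^ 2 * R ^ 2) * h1 +
        (-8 * S ^ 2 * D ^ 2 * (S ^ 2 + 2 * D ^ 2)) * h2
    · have e : (2 : ℤ) ^ (k + 1 + 1) * (S * T * R * D') = 2 * S * T * R * D := by
        rw [hDe]; ring
      rw [e]
      linear_combination (-24 * S ^ 2 * D ^ 2 * R ^ 2) * h1 +
        (-24 * S ^ 2 * D ^ 2 * (S ^ 2 + 2 * D ^ 2)) * h2

theorem no_eq {s t x y : ℤ} (ht : Odd t) (hx : Odd x) {i j : ℕ}
    (hij : i < j) : s ^ 2 * (2 ^ (j + 1) * y) ^ 2 ≠ t ^ 2 * (2 ^ (i + 1) * x) ^ 2 := by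
  intro h
  obtain ⟨d, rfl⟩ : ∃ d, j = i + 1 + d := ⟨j - (i + 1), by omega⟩
  have h2 : (2 ^ (i + 1) : ℤ) ^ 2 * (s ^ 2 * (2 ^ (d + 1) * y) ^ 2) =
      (2 ^ (i + 1) : ℤ) ^ 2 * (t ^ 2 * x ^ 2) := by
    have e : (2 : ℤ) ^ (i + 1 + d + 1) = 2 ^ (i + 1) * 2 ^ (d + 1) := by ring
    rw [e] at h
    linear_combination h
  have h3 : s ^ 2 * (2 ^ (d + 1) * y) ^ 2 = t ^ 2 * x ^ 2 :=
    mul_left_cancel₀ (by positivity) h2
  have h4 : Odd (t ^ 2 * x ^ 2) := ht.pow.mul hx.pow
  have h5 : Even (s ^ 2 * (2 ^ (d + 1) * y) ^ 2) := by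
    refine ⟨s ^ 2 * (2 * (2 ^ d * y) ^ 2), by ring⟩
  rw [h3] at h5
  exact (Int.not_even_iff_odd.mpr h4) h5

theorem three (n : ℕ) : HasTable 3 n := by
  choose S T R D hS hT hR hD h1 h2 using seq_spec
  have hDne : ∀ k, (2 ^ (k + 1) * D k : ℤ) ≠ 0 := by
    intro k
    have h : D k ≠ 0 := by
      intro h0
      have := hD k
      rw [h0] at this
      exact absurd this (by decide)
    positivity
  have hM : ∀ j : Fin n, ∃ E : ℤ,
      ∏ k ∈ Finset.range n, (2 ^ (k + 1) * D k : ℤ) = (2 ^ (j.val + 1) * D j.val) * E := by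
    intro j
    exact Finset.dvd_prod_of_mem (fun k => (2 ^ (k + 1) * D k : ℤ)) (Finset.mem_range.mpr j.2)
  obtain ⟨M, hMdef⟩ : ∃ M, M = ∏ k ∈ Finset.range n, (2 ^ (k + 1) * D k : ℤ) := ⟨_, rfl⟩
  rw [← hMdef] at hM
  have hM0 : M ≠ 0 := by
    rw [hMdef]
    exact Finset.prod_ne_zero_iff.mpr fun k _ => hDne k
  choose E hE using hM
  have hMp : 0 < M ^ 2 := by positivity
  refine ⟨![0, 2 * M ^ 2, 6 * M ^ 2], fun j => (S j * E j) ^ 2, ?_, ?_, ?_⟩
  · intro i j hij
    fin_cases i <;> fin_cases j <;> first | rfl | (exfalso; simp at hij; omega)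
  · intro i j hij
    by_contra hne
    have hkey : S i ^ 2 * (2 ^ (j.val + 1) * D j) ^ 2 = S j ^ 2 * (2 ^ (i.val + 1) * D i) ^ 2 := by
      have h3 : (M ^ 2) * (S i ^ 2 * (2 ^ (j.val + 1) * D j) ^ 2) =
          (M ^ 2) * (S j ^ 2 * (2 ^ (i.val + 1) * D i) ^ 2) := by
        have e1 : (M ^ 2) * (S i ^ 2 * (2 ^ (j.val + 1) * D j) ^ 2) =
            (S i * E i) ^ 2 * (2 ^ (i.val + 1) * D i) ^ 2 * (2 ^ (j.val + 1) * D j) ^ 2 := by
          rw [hE i]; ring
        have e2 : (M ^ 2) * (S j ^ 2 * (2 ^ (i.val + 1) * D i) ^ 2) =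
            (S j * E j) ^ 2 * (2 ^ (i.val + 1) * D i) ^ 2 * (2 ^ (j.val + 1) * D j) ^ 2 := by
          rw [hE j]; ring
        rw [e1, e2]
        have hij' : (S i * E i) ^ 2 = (S j * E j) ^ 2 := hij
        rw [hij']
      exact mul_left_cancel₀ hMp.ne' h3
    rcases lt_or_gt_of_ne (fun h => hne (Fin.ext h) : i.val ≠ j.val) with h | h
    · exact no_eq (hS j) (hD i) h hkey
    · exact no_eq (hS i) (hD j) h hkey.symm
  · intro i j
    fin_cases i
    · exact ⟨S j * E j, by simp; ring⟩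
    · refine ⟨T j * E j, ?_⟩
      change 2 * M ^ 2 + (S j * E j) ^ 2 = _
      rw [hE j]
      linear_combination (-(E j) ^ 2) * h1 j
    · refine ⟨R j * E j, ?_⟩
      change 6 * M ^ 2 + (S j * E j) ^ 2 = _
      rw [hE j]
      linear_combination (-(E j) ^ 2) * h2 j

theorem four_six : HasTable 4 6 := by
  refine ⟨![0, 16594560, 137675520, 1202947200],
    ![2988 ^ 2, 4356 ^ 2, 5787 ^ 2, 11164 ^ 2, 17046 ^ 2, 23948 ^ 2], ?_, ?_, ?_⟩
  · intro i j h
    fin_cases i <;> fin_cases j <;> first | rfl | (exfalso; norm_num at h)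
  · intro i j h
    fin_cases i <;> fin_cases j <;> first | rfl | (exfalso; norm_num at h)
  · intro i j
    refine ⟨(![![2988, 4356, 5787, 11164, 17046, 23948], ![5052, 5964, 7077, 11884, 17526, 24292],
      ![12108, 12516, 13083, 16196, 20694, 26668],
      ![34812, 34956, 35163, 36436, 38646, 42148]] : Fin 4 → Fin 6 → ℤ) i j, ?_⟩
    fin_cases i <;> fin_cases j <;> decide +kernel

/-- There is a `(3, n)`-square table and an `(n, 3)`-square table for every `n`, and there are a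
`(4, 6)`-square table and a `(6, 4)`-square table. -/
theorem result : (∀ n : ℕ, HasTable 3 n ∧ HasTable n 3) ∧ HasTable 4 6 ∧ HasTable 6 4 :=
  ⟨fun n => ⟨three n, (three n).symm⟩, four_six, four_six.symm⟩

end Pool.Agent.Results.MP_79d058_nt.ThreeByAll
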